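import Pool.Agent.Q173.MU.Data

/-!
# Iwasawa cohomology of `p`-adic representations in arbitrary finite Galois `p`-extensions

For a representation `T` of the Galois group of `K` the module `H²_Iw(𝓞_{L,S}, T)`, localised at the uniformiser, has a
presentation over the group ring of `Gal(L / K)` for every finite `p`-extension `L / K`, in which the number of generators
and the difference `r` of the numbers of relations and generators do not depend on `L`. So the number of generators grows
at most linearly in ALL finite Galois `p`-extensions, and if `r = 0` it grows at least as `[L : K] / l(G)`, where `l(G)` is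
the nilpotency index of the augmentation ideal of the group ring of the Galois group `G` in characteristic `p`.
-/

set_option autoImplicit false

namespace Pool.Agent.Results.MP_519cc8_nt.ArbitraryExtensions

open Pool.Agent.Q173.MU IsLocalRing

/-- The cohomology of representations, for one coefficient ring `R` (the ring of integers of a finite extension of `ℚ_p`,
with uniformiser `π`): `Rep K` is the set of the representations `T` (free `R`-modules of finite rank with a continuous
action of `G_K`, ramified at finitely many places), `res` the restriction to a larger field, `O` the localisation of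
`Λ = R[[Γ]]` at `(π)`, `H K T` the module `H²_Iw(𝓞_{K,S}, T) ⊗_Λ O` and `r K T` the sum of
`[K_v : ℝ] rank T - rank H⁰(K_v, T)` over the archimedean places `v` of `K`. -/
structure CohData where
  /-- the representations -/
  Rep : IntermediateField ℚ ℂ → Type
  /-- restriction -/
  res : ∀ {K L : IntermediateField ℚ ℂ}, K ≤ L → Rep K → Rep L
  /-- the ring -/
  O : Type
  [ring : CommRing O]
  [loc : IsLocalRing O]
  /-- the modules -/
  H : ∀ K : IntermediateField ℚ ℂ, Rep K → Type
  [grp : ∀ K T, AddCommGroup (H K T)]
  [mod : ∀ K T, Module O (H K T)]
  /-- the archimedean contribution -/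
  r : ∀ K : IntermediateField ℚ ℂ, Rep K → ℕ

attribute [instance] CohData.ring CohData.loc CohData.grp CohData.mod

/-- The number of generators of `H K T`. -/
noncomputable def CohData.m (D : CohData) (K : IntermediateField ℚ ℂ) (T : D.Rep K) : ℕ := rk D.O (D.H K T)

/-- The assertion of Q1 for `K`, `T`: the module `H²_Iw(𝓞_{K,S}, T)` is torsion with `μ`-invariant zero, i.e. its
localisation `H K T` at `(π)` is zero. -/
def CohData.Good (D : CohData) (K : IntermediateField ℚ ℂ) (T : D.Rep K) : Prop := Subsingleton (D.H K T)

/-- The residue field of `O` is infinite of characteristic `p`. -/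
def IsLoc (D : CohData) (p : ℕ) : Prop := Infinite (ResidueField D.O) ∧ CharP (ResidueField D.O) p

/-- Presentations: let `L / K` be a finite Galois `p`-extension with group `G` such that `L ∩ K_∞ = K`. Then the module
`H L T` has a presentation over `O[G]` with `m(K, T)` generators and `m(K, T) + r(K, T)` relations, and its coinvariants are
`H K T`. (The complex `RΓ_Iw(𝓞_{K,S}, R[G] ⊗ T)` is perfect with the Euler characteristic `- r(K, T)` of Tate's formula;
localised at `(π)` it has cohomology only in the degrees `1` and `2`, also modulo the maximal ideal; enlarging `S` by the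
places ramified in `L` does not change the localised `H²`.) -/
def HasPres (D : CohData) (p : ℕ) : Prop :=
  ∀ (K L : IntermediateField ℚ ℂ) (h : K ≤ L) (T : D.Rep K), IsExt p h → IsPGroup p (GalGrp h) →
    IsPres D.O (GalGrp h) (D.H L (D.res h T)) (D.H K T) (D.m K T) (D.m K T + D.r K T)

/-- The modules are finitely generated. -/
def IsFin (D : CohData) : Prop := ∀ (K : IntermediateField ℚ ℂ) (T : D.Rep K), FiniteDimensional ℚ K → Module.Finite D.O (D.H K T)

/-- The known properties of the cohomology groups. -/
structure Known (D : CohData) (p : ℕ) : Prop where
  loc : IsLoc D p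
  fin : IsFin D
  pres : HasPres D p

/-- Let `p` be an odd prime. Assume the known properties of the Iwasawa cohomology of the representations over a
coefficient ring `R`. Then the assertion of Q1 holds for `K`, `T` if and only if `m(K, T) = 0`, and for ALL finite Galois
`p`-extensions `L` of `K` with `L ∩ K_∞ = K` and group `G`:

(1) `m(L, T) ≤ m(K, T) [L : K]`;

(2) if `r(K, T) = 0`, then `m(K, T) [L : K] ≤ l m(L, T)`, if the `l`-th power of the augmentation ideal of the group ring of
`G` over the residue field is zero. -/
theorem result (p : ℕ) [Fact p.Prime] (_ : p ≠ 2) (D : CohData) (hD : Known D p) :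
    (∀ (K : IntermediateField ℚ ℂ) (T : D.Rep K), FiniteDimensional ℚ K → (D.Good K T ↔ D.m K T = 0)) ∧
    (∀ (K L : IntermediateField ℚ ℂ) (h : K ≤ L) (T : D.Rep K), IsExt p h → IsPGroup p (GalGrp h) →
      D.m L (D.res h T) ≤ deg K L * D.m K T ∧
      (D.r K T = 0 → ∀ l, augSub (ResidueField D.O) (GalGrp h) ^ l = ⊥ →
        D.m K T * deg K L ≤ l * D.m L (D.res h T))) := by
  have hI := hD.loc.1
  have hC := hD.loc.2
  refine ⟨?_, ?_⟩
  · intro K T hK
    have := hD.fin K T hK
    have h1 : D.m K T = 0 ↔ Module.length D.O (D.H K T) = 0 := rk_eq_zero_iff
    rw [h1, Module.length_eq_zero_iff]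
    rfl
  · intro K L h T hE hp
    have hfin := finite_gal hE
    have hP := hD.pres K L h T hE hp
    rw [← card_gal hE]
    refine ⟨hP.rk_le, fun hr l hl => ?_⟩
    rw [hr, add_zero] at hP
    exact hP.mul_card_le hl

end Pool.Agent.Results.MP_519cc8_nt.ArbitraryExtensions
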