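import Pool.Agent.Q182.SP.Rep

/-!
# Growth of the `μ`-invariant of representations by the number of the irreducible constituents

(Theorem of helper50; one of the two parts of the former joined hand-in StrictGrowth; the other one is
GrowthTest.)
-/

set_option autoImplicit false
set_option maxHeartbeats 4000000
set_option synthInstance.maxHeartbeats 400000

namespace Pool.Agent.Results.MP_519cc8_nt.GrowthByConstituents

open Pool.Agent.Q173.MU Pool.Agent.Q50.MU Pool.Agent.Q182.SP.Rep

/-- Let `p` be an odd prime. Assume the known properties of the Iwasawa cohomology of the representations over a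
coefficient ring `R`. Let `K` be a number field and `T` a representation with `r(K, T) = 0`. Then for ALL finite Galois
`p`-extensions `L / K` with group `G` and `L ∩ K_∞ = K`

(1) `ℓ(L, T) ≥ ℓ(K, T) + (i(G) - 1) m(K, T)`, where `i(G)` is the number of the irreducible constituents of the regular
representation of `G` over `ℚ`,

(2) `ℓ(L, T) ≥ ℓ(K, T) + n m(K, T)` if `[L : K] = p ^ n`,

(3) `φ(N) (i(G) - 1) ≥ |G| - 1` if `G` is abelian of exponent dividing `N`,

and `m(K, T) = 0` if and only if `ℓ(K, T) = 0`, if and only if the assertion of Q1 holds for `K`, `T`. -/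
theorem result (p : ℕ) [Fact p.Prime] (_ : p ≠ 2) (D : CohData) (hD : Known D p) :
    (∀ (K L : IntermediateField ℚ ℂ) (h : K ≤ L) (T : D.Rep K), IsExt p h → IsPGroup p (GalGrp h) → D.r K T = 0 →
      D.ell K T + (irr (GalGrp h) - 1 : ℕ) * D.m K T ≤ D.ell L (D.res h T) ∧
      ∀ n : ℕ, Nat.card (GalGrp h) = p ^ n → D.ell K T + n * D.m K T ≤ D.ell L (D.res h T)) ∧
    (∀ (G : Type) [Group G] [Finite G] (n : ℕ), Nat.card G = p ^ n → n + 1 ≤ irr G) ∧
    (∀ (G : Type) [CommGroup G] [Finite G] (N : ℕ), 0 < N → (∀ g : G, g ^ N = 1) →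
        Nat.card G ≤ 1 + (irr G - 1) * N.totient) ∧
    ∀ (K : IntermediateField ℚ ℂ) (T : D.Rep K), FiniteDimensional ℚ K →
      (D.Good K T ↔ D.ell K T = 0) ∧ (D.Good K T ↔ D.m K T = 0) := by
  refine ⟨fun K L h T hE hP hr => ⟨ell_add_le_irr hD T hE hP hr, fun n hn => ?_⟩,
    fun G _ _ n hn => le_irr_of_card hn, fun G _ _ N hN hG => card_le_irr hN hG,
    fun K T hK => good_iff hD T hK⟩
  have hfin := finite_gal hE
  have h1 : n + 1 ≤ irr (GalGrp h) := le_irr_of_card hn
  refine le_trans ?_ (ell_add_le_irr hD T hE hP hr)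
  have h2 : n * D.m K T ≤ (irr (GalGrp h) - 1) * D.m K T := Nat.mul_le_mul_right _ (by omega)
  have h3 : ((n * D.m K T : ℕ) : ℕ∞) ≤ (((irr (GalGrp h) - 1) * D.m K T : ℕ) : ℕ∞) := by
    exact_mod_cast h2
  push_cast at h3 ⊢
  exact add_le_add le_rfl h3

end Pool.Agent.Results.MP_519cc8_nt.GrowthByConstituents
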