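import Pool.Agent.Q182.SP.Rep

/-!
# The `μ`-invariant of representations grows in all `p`-extensions with enough generators

(Theorem of helper50; one of the two parts of the former joined hand-in StrictGrowth; the other one is
GrowthByConstituents.)
-/

set_option autoImplicit false
set_option maxHeartbeats 4000000
set_option synthInstance.maxHeartbeats 400000

namespace Pool.Agent.Results.MP_519cc8_nt.GrowthTest

open Pool.Agent.Q173.MU Pool.Agent.Q50.MU Pool.Agent.Q182.SP.Rep

/-- Let `p` be an odd prime. Assume the known properties of the Iwasawa cohomology of the representations over a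
coefficient ring `R`. Let `K` be a number field and `T` a representation. Then:

(0) the assertion of Q1 for `K`, `T` holds if and only if `ℓ(K, T) = 0`, and if and only if `m(K, T) = 0`.

(1) For ALL finite Galois `p`-extensions `L / K` with `L ∩ K_∞ = K` whose group has a quotient `(ℤ/p)^d`:
`ℓ(L, T) + r(K, T) ≥ ℓ(K, T) + d m(K, T)`.

(2) If moreover `d > r(K, T)` then the assertion of Q1 for `K`, `T` holds if and only if `H²_Iw(𝓞_{K,S}, T)` is torsion and
`ℓ(L, T) ≤ ℓ(K, T)`, i.e. the `μ`-invariant does not grow.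

(3) The assertion of Q1 holds for all `K`, `T` if and only if for all `K`, `T` the module `H²_Iw(𝓞_{K,S}, T)` is torsion and
there are `d > r(K, T)` and an extension `L` as in (1) such that the `μ`-invariant does not grow. -/
theorem result (p : ℕ) [Fact p.Prime] (_ : p ≠ 2) (D : CohData) (hD : Known D p) :
    (∀ (K : IntermediateField ℚ ℂ) (T : D.Rep K), FiniteDimensional ℚ K →
      (D.Good K T ↔ D.ell K T = 0) ∧ (D.Good K T ↔ D.m K T = 0)) ∧
    (∀ (K L : IntermediateField ℚ ℂ) (h : K ≤ L) (T : D.Rep K) (d : ℕ), IsExt p h → IsPGroup p (GalGrp h) →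
      HasElemQuot p d (GalGrp h) → D.ell K T + d * D.m K T ≤ D.ell L (D.res h T) + D.r K T) ∧
    (∀ (K L : IntermediateField ℚ ℂ) (h : K ≤ L) (T : D.Rep K) (d : ℕ), IsExt p h → IsPGroup p (GalGrp h) →
      HasElemQuot p d (GalGrp h) → D.r K T < d →
      (D.Good K T ↔ D.ell L (D.res h T) ≤ D.ell K T ∧ D.ell K T ≠ ⊤)) ∧
    ((∀ (K : IntermediateField ℚ ℂ) (T : D.Rep K), FiniteDimensional ℚ K → D.Good K T) ↔
      ∀ (K : IntermediateField ℚ ℂ) (T : D.Rep K), FiniteDimensional ℚ K → D.ell K T ≠ ⊤ ∧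
        ∃ (d : ℕ) (L : IntermediateField ℚ ℂ) (h : K ≤ L), D.r K T < d ∧ IsExt p h ∧ IsPGroup p (GalGrp h) ∧
          HasElemQuot p d (GalGrp h) ∧ D.ell L (D.res h T) ≤ D.ell K T) := by
  refine ⟨fun K T hK => good_iff hD T hK, fun K L h T d hE hP hd => ell_add_le hD T hE hP hd,
    fun K L h T d hE hP hd hdr => criterion hD T hE hP hd hdr, ?_⟩
  constructor
  · intro hall K T hK
    obtain ⟨L, h, hE, hP, hd⟩ := hD.ext K (D.r K T + 1) hK
    have h1 := (criterion hD T hE hP hd (Nat.lt_succ_self _)).1 (hall K T hK)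
    exact ⟨h1.2, D.r K T + 1, L, h, Nat.lt_succ_self _, hE, hP, hd, h1.1⟩
  · intro hall K T hK
    obtain ⟨hne, d, L, h, hdr, hE, hP, hd, hle⟩ := hall K T hK
    exact (criterion hD T hE hP hd hdr).2 ⟨hle, hne⟩

end Pool.Agent.Results.MP_519cc8_nt.GrowthTest
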